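import Pool.Agent.helper59.ZB.SpecH
import Pool.Agent.helper18.BR.HVA

set_option autoImplicit false

/-! Row HVAT of project ZB (MP_baa4d7_al). -/

namespace Pool.Agent.GB

open Pool.Agent.helper58.DC Pool.Agent.DI Pool.Agent.GR Pool.Agent.OB Pool.Agent.DR Pool.Agent.FI Pool.Agent.FI3 Pool.Agent.FI4 Pool.Agent.LE Pool.Agent.BR

theorem HVAT (hHAGT : HAGT_stmt) (hHCTT : HCTT_stmt) (_hB2 : B2_stmt) : HVAT_stmt := by
  intro p M hS G _ _ D T x θ χ hZ z hz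
  obtain ⟨N, hN, hcard⟩ := hHCTT p M hS G D T x θ χ hZ z hz
  refine ⟨N, hN, fun η hη ψ hψ => ?_⟩
  exact HVA_main p M hS T θ _ z (fun k hk => (mem_Cz.1 hk).2) η hη.1 N hcard (hHAGT p M hS G D T x θ χ hZ z hz η hη)
    ψ hψ.1 hψ.2

end Pool.Agent.GB
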