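import Pool.Agent.helper58.ZB.SpecN

set_option autoImplicit false

/-! Row CIT of project ZB (MP_baa4d7_al). -/

namespace Pool.Agent.GB

open Pool.Agent.helper58.DC Pool.Agent.DI Pool.Agent.GR Pool.Agent.OB Pool.Agent.DR Pool.Agent.FI Pool.Agent.FI3 Pool.Agent.FI4 Pool.Agent.LE Pool.Agent.BR

section

variable {G : Type} [Group G]

theorem CIT_card [Finite G] {A B : Subgroup G} (h : A ≤ B) : A.relIndex B * Nat.card A = Nat.card B := by
  have h1 := Subgroup.index_mul_card (A.subgroupOf B)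
  have h2 : Nat.card (A.subgroupOf B) = Nat.card A :=
    Nat.card_congr (Subgroup.subgroupOfEquivOfLe h).toEquiv
  rw [h2] at h1
  exact h1

theorem CIT_sup [Finite G] {H N : Subgroup G} (h : H ≤ Subgroup.normalizer (N : Set G)) :
    N.relIndex (H ⊔ N) = N.relIndex H := by
  haveI h1 := Subgroup.normal_subgroupOf_of_le_normalizer h
  haveI h2 := Subgroup.normal_subgroupOf_sup_of_le_normalizer h
  have h3 := Nat.card_congr (QuotientGroup.quotientInfEquivProdNormalizerQuotient H N h).toEquiv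
  exact h3.symm

theorem CIT_le {D T : Subgroup G} (h : T ≤ cz D) : D ≤ cz T := by
  intro d hd
  rw [Subgroup.mem_centralizer_iff]
  intro t ht
  exact ((Subgroup.mem_centralizer_iff.1 (h ht)) d hd).symm

theorem CIT_nz (D : Subgroup G) : D ≤ Subgroup.normalizer ((cz D : Subgroup G) : Set G) := by
  intro d hd
  rw [Subgroup.mem_normalizer_iff]
  have hfix : ∀ e ∈ D, ∀ c ∈ cz D, e * c * e⁻¹ = c := by
    intro e he c hc
    rw [(Subgroup.mem_centralizer_iff.1 hc) e he]
    group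
  intro c
  constructor
  · intro hc
    rw [hfix d hd c hc]
    exact hc
  · intro hc
    have h1 := hfix d⁻¹ (D.inv_mem hd) _ hc
    have h2 : d⁻¹ * (d * c * d⁻¹) * d⁻¹⁻¹ = c := by group
    rw [h2] at h1
    rw [h1]
    exact hc

theorem CIT_E {M : Ideal (integralClosure ℤ ℂ)} {D T : Subgroup G} {θ : G → ℂ} {u : G} (hu : u ∈ T) :
    TT M D θ ⊓ cz T ≤ Cz (TT M D θ) u := by
  intro y hy
  rw [mem_Cz]
  exact ⟨hy.1, (Subgroup.mem_centralizer_iff.1 hy.2) u hu⟩

theorem CIT_k [Finite G] {M : Ideal (integralClosure ℤ ℂ)} {D T : Subgroup G} {θ : G → ℂ} {u : G} (hu : u ∈ T) :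
    ciT M D T θ u = (((TT M D θ ⊓ cz T).relIndex (Cz (TT M D θ) u) : ℕ) : ℂ) := by
  have hne : (Nat.card (TT M D θ ⊓ cz T : Subgroup G) : ℂ) ≠ 0 := by exact_mod_cast Nat.card_pos.ne'
  unfold ciT
  rw [div_eq_iff hne]
  exact_mod_cast (CIT_card (CIT_E hu)).symm

end

theorem CIT (hNTB : NTB_stmt) : CIT_stmt := by
  intro p M hS G _ _ D T x θ χ h
  obtain ⟨hDT, hm⟩ := hNTB p M hS G D x θ χ h.rt
  have hDcT : D ≤ cz T := CIT_le h.tcz
  have hcc : cz D ≤ cz T := cz_mono h.tle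
  have hcE : cz D ≤ TT M D θ ⊓ cz T := le_inf cz_le_TT hcc
  have hEi : (TT M D θ ⊓ cz T).relIndex (TT M D θ) = iT M D T θ := by
    unfold iT
    exact Subgroup.inf_relIndex_left _ _
  have hDp : IsPGroup p D := h.rt.dfa.pgrp
  have hsup : D ⊔ cz D ≤ TT M D θ := sup_le hDT cz_le_TT
  refine ⟨?_, ?_, fun u hu => ⟨⟨_, CIT_k hu⟩, fun s hs => ?_⟩, ?_⟩
  · rw [CIT_k T.one_mem]
    have h1 : Cz (TT M D θ) 1 = TT M D θ := by
      ext y
      rw [mem_Cz, one_mul, mul_one]
      exact ⟨fun h => h.1, fun h => ⟨h, rfl⟩⟩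
    rw [h1, hEi]
  · intro hp
    exact hm (hp.trans (Subgroup.relIndex_dvd_of_le_left _ (sup_le hDcT hcc)))
  · have h1 : Cz (TT M D θ) (u ^ s) = Cz (TT M D θ) u := by
      obtain ⟨k, hk⟩ := hDp ⟨u, h.tle hu⟩
      have hk' : u ^ p ^ k = 1 := by simpa using congrArg Subtype.val hk
      have hco : Nat.Coprime s (p ^ k) := Nat.Coprime.pow_right k ((Nat.Prime.coprime_iff_not_dvd hS.pr).2 hs).symm
      obtain ⟨r, hr⟩ := exists_pow_eq_self_of_coprime (x := u) (hco.coprime_dvd_right (orderOf_dvd_of_pow_eq_one hk'))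
      ext y
      rw [mem_Cz, mem_Cz]
      refine and_congr_right fun _ => ⟨fun h => ?_, fun h => ?_⟩
      · have h2 : Commute (u ^ s) y := h
        have h3 := h2.pow_left r
        rw [hr] at h3
        exact h3
      · have h2 : Commute u y := h
        exact h2.pow_left s
    unfold ciT
    rw [h1]
  · have hE : (cz D).relIndex (TT M D θ ⊓ cz T) * Nat.card (cz D) = Nat.card (TT M D θ ⊓ cz T : Subgroup G) := CIT_card hcE
    have hpos : 0 < (cz D).relIndex (TT M D θ ⊓ cz T) := by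
      rcases Nat.eq_zero_or_pos ((cz D).relIndex (TT M D θ ⊓ cz T)) with h0 | h0
      · rw [h0, zero_mul] at hE
        exact absurd hE.symm Nat.card_pos.ne'
      · exact h0
    refine ⟨(cz D).relIndex (TT M D θ ⊓ cz T), iT M D T θ * T.relIndex (D ⊓ cz D), (D ⊔ cz D).relIndex (TT M D θ),
      hpos.ne', hm, ?_, fun u => ?_⟩
    · have h1 : (cz D).relIndex (TT M D θ ⊓ cz T) * iT M D T θ = (cz D).relIndex D * (D ⊔ cz D).relIndex (TT M D θ) := by
        rw [← hEi, Subgroup.relIndex_mul_relIndex _ _ _ hcE inf_le_left, ← CIT_sup (CIT_nz D),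
          Subgroup.relIndex_mul_relIndex _ _ _ le_sup_right hsup]
      have h2 : T.relIndex (D ⊓ cz D) * (cz D).relIndex D = T.relIndex D := by
        rw [← Subgroup.inf_relIndex_left D (cz D), Subgroup.relIndex_mul_relIndex _ _ _ (le_inf h.tle h.tcz) inf_le_left]
      rw [← mul_assoc, h1, ← h2]
      ring
    · have hne : (Nat.card (cz D) : ℂ) ≠ 0 := by exact_mod_cast Nat.card_pos.ne'
      have hne' : (Nat.card (TT M D θ ⊓ cz T : Subgroup G) : ℂ) ≠ 0 := by exact_mod_cast Nat.card_pos.ne'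
      have hE' : (((cz D).relIndex (TT M D θ ⊓ cz T) : ℕ) : ℂ) * (Nat.card (cz D) : ℂ) =
          (Nat.card (TT M D θ ⊓ cz T : Subgroup G) : ℂ) := by exact_mod_cast hE
      unfold ci ciT
      rw [div_eq_iff hne, mul_div_assoc', div_mul_eq_mul_div, eq_div_iff hne', ← hE']
      ring

end Pool.Agent.GB
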